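import Mathlib

/-! MP_49314d_al: there is no universal countable right-orderable group.
For every countable group `U` there is a two-generated right-orderable group
which does not embed in `U`. -/

namespace Pool.Agent.Results.MP_49314d_al.NoUniversal

/-- A group is right-orderable if it admits a total order invariant under right multiplication. -/
def RightOrderable (G : Type*) [Group G] : Prop :=
  ∃ _r : LinearOrder G, ∀ x y z : G, x ≤ y → x * z ≤ y * z

theorem RightOrderable.of_injective {G H : Type*} [Group G] [Group H] (h : RightOrderable H)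
    (f : G →* H) (hf : Function.Injective f) : RightOrderable G := by
  obtain ⟨r, hr⟩ := h
  refine ⟨LinearOrder.lift' f hf, fun x y z hxy => ?_⟩
  have : f x ≤ f y := hxy
  show f (x * z) ≤ f (y * z)
  rw [map_mul, map_mul]
  exact hr _ _ _ this

theorem rightOrderable_int : RightOrderable (Multiplicative ℤ) :=
  ⟨inferInstance, fun _ _ z h => mul_le_mul_left h z⟩

theorem RightOrderable.semidirect {N G : Type*} [Group N] [Group G] (hN : RightOrderable N)
    (hG : RightOrderable G) (φ : G →* MulAut N) : RightOrderable (N ⋊[φ] G) := by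
  obtain ⟨rN, hrN⟩ := hN
  obtain ⟨rG, hrG⟩ := hG
  let F : N ⋊[φ] G → G ×ₗ N := fun p => toLex (p.right, p.left)
  have hF : Function.Injective F := by
    intro p q h
    have h1 : (p.right, p.left) = (q.right, q.left) := toLex.injective h
    have h2 := Prod.mk.inj h1
    exact SemidirectProduct.ext h2.2 h2.1
  refine ⟨LinearOrder.lift' F hF, fun x y z hxy => ?_⟩
  have h0 : F x ≤ F y := hxy
  show F (x * z) ≤ F (y * z)
  have h1 : x.right < y.right ∨ x.right = y.right ∧ x.left ≤ y.left :=
    (Prod.Lex.toLex_le_toLex).1 h0
  refine (Prod.Lex.toLex_le_toLex).2 ?_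
  show x.right * z.right < y.right * z.right ∨
    x.right * z.right = y.right * z.right ∧
      x.left * φ x.right z.left ≤ y.left * φ y.right z.left
  rcases h1 with h1 | ⟨h1, h2⟩
  · left
    refine lt_of_le_of_ne (hrG _ _ _ h1.le) ?_
    intro h
    exact h1.ne (mul_right_cancel h)
  · right
    refine ⟨by rw [h1], ?_⟩
    rw [h1]
    exact hrN _ _ _ h2

theorem RightOrderable.pi_nat {A : Type*} [Group A] (hA : RightOrderable A) :
    RightOrderable (ℕ → A) := by
  obtain ⟨rA, hrA⟩ := hA
  let F : (ℕ → A) → Lex (ℕ → A) := fun p => toLex p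
  have hF : Function.Injective F := toLex.injective
  refine ⟨LinearOrder.lift' F hF, fun x y z hxy => ?_⟩
  have h0 : F x ≤ F y := hxy
  show F (x * z) ≤ F (y * z)
  rcases h0.eq_or_lt with h0 | h0
  · have : x = y := hF h0
    rw [this]
  · apply le_of_lt
    obtain ⟨i, hi, hlt⟩ := h0
    refine ⟨i, fun j hj => ?_, ?_⟩
    · have := hi j hj
      show x j * z j = y j * z j
      have h' : x j = y j := this
      rw [h']
    · show x i * z i < y i * z i
      have h' : x i < y i := hlt
      exact lt_of_le_of_ne (hrA _ _ _ h'.le) (fun h => h'.ne (mul_right_cancel h))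

theorem RightOrderable.pi_int {A : Type*} [Group A] (hA : RightOrderable A) :
    RightOrderable (ℤ → A) := by
  refine hA.pi_nat.of_injective
    (MonoidHom.mk' (fun (f : ℤ → A) (n : ℕ) => f (Equiv.intEquivNat.symm n)) ?_) ?_
  · intro f g
    rfl
  · intro f g h
    funext j
    have := congrFun h (Equiv.intEquivNat j)
    simpa using this

/-- Shift action of the integers on integer-indexed sequences. -/
def shift (A : Type*) [Group A] : Multiplicative ℤ →* MulAut (ℤ → A) where
  toFun n :=
    { toFun := fun f j => f (j + n.toAdd)
      invFun := fun f j => f (j - n.toAdd)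
      left_inv := fun f => by funext j; simp
      right_inv := fun f => by funext j; simp
      map_mul' := fun f g => rfl }
  map_one' := by ext f j; simp
  map_mul' m n := by
    ext f j
    simp only [MulEquiv.coe_mk, Equiv.coe_fn_mk, toAdd_mul, MulAut.mul_apply]
    congr 1
    ring

/-- Shift-permutation group: a fixed noncommutative right-orderable group. -/
abbrev Base : Type := (ℤ → Multiplicative ℤ) ⋊[shift (Multiplicative ℤ)] Multiplicative ℤ

theorem base_rightOrderable : RightOrderable Base :=
  rightOrderable_int.pi_int.semidirect rightOrderable_int _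

/-- first noncommuting element -/
def ea : Base := ⟨fun j => if j = 0 then Multiplicative.ofAdd 1 else 1, 1⟩
/-- second noncommuting element -/
def eb : Base := ⟨1, Multiplicative.ofAdd 1⟩

theorem ea_eb : ¬ Commute ea eb := by
  intro h
  have h1 := congrArg SemidirectProduct.left h.eq
  have h2 := congrFun h1 0
  have h3 : ((if (0 : ℤ) = 0 then Multiplicative.ofAdd (1 : ℤ) else 1)) =
    (if (0 + (Multiplicative.ofAdd (1 : ℤ)).toAdd) = 0 then Multiplicative.ofAdd (1 : ℤ)
      else 1) := h2
  revert h3
  decide

/-- The ambient group. -/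
abbrev Big : Type := (ℤ → Base) ⋊[shift Base] Multiplicative ℤ

theorem big_rightOrderable : RightOrderable Big :=
  base_rightOrderable.pi_int.semidirect rightOrderable_int _

open Classical in
/-- The sequence attached to a set of naturals. -/
noncomputable def seqT (T : Set ℕ) : ℤ → Base := fun j =>
  if j = 0 then ea else if 0 < j ∧ j.toNat ∈ T then eb else 1

/-- first generator -/
noncomputable def gx (T : Set ℕ) : Big := ⟨seqT T, 1⟩
/-- second generator -/
def gt : Big := ⟨1, Multiplicative.ofAdd 1⟩

theorem gt_pow (k : ℕ) : gt ^ k = ⟨1, Multiplicative.ofAdd (k : ℤ)⟩ := by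
  induction k with
  | zero => rfl
  | succ k ih =>
    rw [pow_succ, ih]
    apply SemidirectProduct.ext
    · simp [gt]
    · simp only [gt, SemidirectProduct.mul_right]
      rw [← ofAdd_add]
      congr 1

theorem conj_eq (T : Set ℕ) (k : ℕ) :
    gt ^ k * gx T * (gt ^ k)⁻¹ = ⟨fun j => seqT T (j + k), 1⟩ := by
  rw [mul_inv_eq_iff_eq_mul, gt_pow]
  apply SemidirectProduct.ext
  · simp only [gx, SemidirectProduct.mul_left, one_mul, map_one, mul_one]
    rfl
  · simp [gx]

theorem commute_iff (T : Set ℕ) (k : ℕ) :
    Commute (gt ^ (k+1) * gx T * (gt ^ (k+1))⁻¹) (gx T) ↔ (k + 1) ∉ T := by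
  rw [conj_eq]
  constructor
  · intro h hk
    have h1 := congrArg SemidirectProduct.left h.eq
    have h2 := congrFun h1 0
    simp only [gx, SemidirectProduct.mul_left, map_one, MulAut.one_apply, Pi.mul_apply] at h2
    have e1 : seqT T 0 = ea := by simp [seqT]
    have e2 : seqT T (0 + ((k + 1 : ℕ) : ℤ)) = eb := by
      have : ((0 : ℤ) + ((k + 1 : ℕ) : ℤ)).toNat = k + 1 := by omega
      unfold seqT
      rw [if_neg (by omega), if_pos ⟨by omega, by rw [this]; exact hk⟩]
    rw [e1, e2] at h2
    exact ea_eb h2.symm
  · intro hk
    apply SemidirectProduct.ext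
    · simp only [gx, SemidirectProduct.mul_left, map_one, MulAut.one_apply]
      funext j
      simp only [Pi.mul_apply]
      show Commute _ _
      rcases lt_trichotomy j 0 with hj | hj | hj
      · have : seqT T j = 1 := by
          unfold seqT
          rw [if_neg (by omega), if_neg (by omega)]
        rw [this]
        exact Commute.one_right _
      · subst hj
        have : seqT T (0 + ((k + 1 : ℕ) : ℤ)) = 1 := by
          have h : ((0 : ℤ) + ((k + 1 : ℕ) : ℤ)).toNat = k + 1 := by omega
          unfold seqT
          rw [if_neg (by omega), if_neg]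
          rw [h]
          exact fun h => hk h.2
        rw [this]
        exact Commute.one_left _
      · have key : ∀ i : ℤ, 0 < i → seqT T i = 1 ∨ seqT T i = eb := by
          intro i hi
          unfold seqT
          rw [if_neg (by omega)]
          split_ifs
          · exact Or.inr rfl
          · exact Or.inl rfl
        rcases key j hj with h1 | h1 <;> rcases key (j + ((k + 1 : ℕ) : ℤ)) (by omega) with h2 | h2
          <;> rw [h1, h2] <;>
          first
            | exact Commute.one_right _
            | exact Commute.one_left _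
            | exact Commute.refl _
    · simp [gx]

theorem commute_map {G H : Type*} [Group G] [Group H] (f : G →* H) (hf : Function.Injective f)
    (t x : G) (k : ℕ) :
    Commute (f t ^ (k+1) * f x * (f t ^ (k+1))⁻¹) (f x) ↔
      Commute (t ^ (k+1) * x * (t ^ (k+1))⁻¹) x := by
  unfold Commute SemiconjBy
  conv_rhs => rw [← hf.eq_iff]
  simp only [map_mul, map_pow, map_inv]

/-- The two-generated group attached to a set of naturals. -/
abbrev GT (T : Set ℕ) : Type := Subgroup.closure ({gx T, gt} : Set Big)

theorem GT_rightOrderable (T : Set ℕ) : RightOrderable (GT T) :=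
  big_rightOrderable.of_injective (Subgroup.subtype _) (Subgroup.subtype_injective _)

/-- For each countable group there is a two-generated (hence countable) right-orderable group
which does not embed in it; in particular no countable right-orderable group is universal. -/
theorem result (U : Type*) [Group U] [Countable U] :
    ∃ (G : Type) (_ : Group G), Countable G ∧ RightOrderable G ∧
      (∃ a b : G, Subgroup.closure {a, b} = ⊤) ∧
      ¬ ∃ f : G →* U, Function.Injective f := by
  by_contra hcon
  push Not at hcon
  have hx : ∀ T, gx T ∈ Subgroup.closure ({gx T, gt} : Set Big) := fun T =>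
    Subgroup.subset_closure (by simp)
  have ht : ∀ T, gt ∈ Subgroup.closure ({gx T, gt} : Set Big) := fun T =>
    Subgroup.subset_closure (by simp)
  have hgen : ∀ T, ∃ a b : GT T, Subgroup.closure {a, b} = ⊤ := by
    intro T
    refine ⟨⟨gx T, hx T⟩, ⟨gt, ht T⟩, ?_⟩
    have := Subgroup.closure_closure_coe_preimage (k := ({gx T, gt} : Set Big))
    rw [← this]
    congr 1
    ext y
    simp [Subtype.ext_iff]
  have hc : ∀ T, Countable (GT T) := by
    intro T
    have : Group.FG (GT T) := by
      obtain ⟨a, b, h⟩ := hgen T
      exact ⟨(Subgroup.fg_iff _).2 ⟨{a, b}, h, Set.toFinite _⟩⟩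
    obtain ⟨S, hS, g, hg⟩ := Group.fg_iff_exists_freeGroup_hom_surjective.1 this
    have : Countable S := hS.countable
    have : Countable (FreeGroup S) := Quot.mk_surjective.countable
    exact hg.countable
  have hf : ∀ T, ∃ f : GT T →* U, Function.Injective f := fun T =>
    hcon (GT T) inferInstance (hc T) (GT_rightOrderable T) (hgen T)
  choose f hf using hf
  let F : Set ℕ → U × U := fun T => (f T ⟨gx T, hx T⟩, f T ⟨gt, ht T⟩)
  have key : ∀ T k, k + 1 ∉ T ↔
      Commute ((F T).2 ^ (k+1) * (F T).1 * ((F T).2 ^ (k+1))⁻¹) (F T).1 := by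
    intro T k
    rw [← commute_iff]
    exact (commute_map (Subgroup.subtype _) (Subgroup.subtype_injective _)
      (⟨gt, ht T⟩ : GT T) ⟨gx T, hx T⟩ k).trans
      (commute_map (f T) (hf T) (⟨gt, ht T⟩ : GT T) ⟨gx T, hx T⟩ k).symm
  let F' : Set ℕ → U × U := fun T => F (Nat.succ '' T)
  have hinj : Function.Injective F' := by
    intro T T' h
    ext k
    have h1 := key (Nat.succ '' T) k
    have h2 := key (Nat.succ '' T') k
    have h3 : F (Nat.succ '' T) = F (Nat.succ '' T') := h
    rw [h3, ← h2] at h1
    have h4 : ∀ X : Set ℕ, k + 1 ∈ Nat.succ '' X ↔ k ∈ X := fun X => by simp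
    rw [h4, h4] at h1
    exact not_iff_not.1 h1
  obtain ⟨g, hg⟩ := exists_injective_nat (U × U)
  exact Function.cantor_injective (g ∘ F') (hg.comp hinj)

end Pool.Agent.Results.MP_49314d_al.NoUniversal
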